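import Pool.Agent.Work.MP_e487d8_al.Bd.B03

/-! MP_e487d8_al: the convolution product: strands, functoriality, associativity, the shuffle
basis (statement). -/

set_option autoImplicit false

open scoped TensorProduct

namespace Pool.Agent.KLS

variable {K I : Type} [Field K] [Fintype I] [DecidableEq I] {D : Datum K I}

namespace Conv

section strand

variable {m n : ℕ} {M N : Type} [AddCommGroup M] [Module K M] [Module (KLRAlg D) M]
  [AddCommGroup N] [Module K N] [Module (KLRAlg D) N]

theorem isStrand (hM : IsStrand D m M) (hN : IsStrand D n N) :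
    IsStrand D (m + n) (Conv D m M N) where
  one k hk z := by
    induction z using Conv.induction with
    | h0 => rw [smul_zero]
    | hadd y z hy hz => rw [smul_add, hy, hz]
    | h a u v =>
      rw [← mul_smul, D.E_comm, mul_smul]
      congr 1
      by_cases h : k < m
      · have h1 := tr_smul_mk (D := D) (m := m) (D.E k) u v
        rw [D.tr_E, if_pos h, hM.one k h] at h1
        exact h1
      · have h1 := shn_smul_mk (D := D) (m := m) (D.E (k - m)) u v
        rw [D.shn_E, hN.one (k - m) (by omega), show m + (k - m) = k by omega] at h1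
        exact h1
  zero k hk i z := by
    have h1 : ∀ (u : M) (v : N), D.E k • mk D m M N u v = 0 := by
      intro u v
      have h1 := shn_smul_mk (D := D) (m := m) (D.E (k - m)) u v
      rwa [D.shn_E, hN.E_smul_zero (by omega), map_zero, show m + (k - m) = k by omega] at h1
    induction z using Conv.induction with
    | h0 => rw [smul_zero]
    | hadd y z hy hz => rw [smul_add, hy, hz, add_zero]
    | h a u v =>
      rw [← D.e_E, mul_smul, ← mul_smul (D.E k), D.E_comm, mul_smul, h1, smul_zero, smul_zero]

end strand

section map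

variable {m m' n n' : ℕ} {M M' M'' N N' N'' : Type}
  [AddCommGroup M] [Module K M] [Module (KLRAlg D) M] [IsScalarTower K (KLRAlg D) M]
  [AddCommGroup N] [Module K N] [Module (KLRAlg D) N] [IsScalarTower K (KLRAlg D) N]
  [AddCommGroup M'] [Module K M'] [Module (KLRAlg D) M'] [IsScalarTower K (KLRAlg D) M']
  [AddCommGroup N'] [Module K N'] [Module (KLRAlg D) N'] [IsScalarTower K (KLRAlg D) N']
  [AddCommGroup M''] [Module K M''] [Module (KLRAlg D) M''] [IsScalarTower K (KLRAlg D) M'']
  [AddCommGroup N''] [Module K N''] [Module (KLRAlg D) N''] [IsScalarTower K (KLRAlg D) N'']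

/-- a `KLRAlg D`-linear map as a `K`-linear map -/
noncomputable def toK (f : M →ₗ[KLRAlg D] M') : M →ₗ[K] M' where
  toFun := f
  map_add' := f.map_add
  map_smul' r u := by
    rw [← algebraMap_smul (KLRAlg D) r u, map_smul, algebraMap_smul]
    rfl

@[simp] theorem toK_apply (f : M →ₗ[KLRAlg D] M') (u : M) : toK f u = f u := rfl

/-- functoriality of the convolution product -/
noncomputable def map (h : m = m') (f : M →ₗ[KLRAlg D] M') (g : N →ₗ[KLRAlg D] N') :
    Conv D m M N →ₗ[KLRAlg D] Conv D m' M' N' :=
  lift ((mk D m' M' N').compl₁₂ (toK f) (toK g))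
    { left := fun a u v => by
        subst h
        simp only [LinearMap.compl₁₂_apply, toK_apply, map_smul]
        exact tr_smul_mk a _ _
      right := fun a u v => by
        subst h
        simp only [LinearMap.compl₁₂_apply, toK_apply, map_smul]
        exact shn_smul_mk a _ _ }

@[simp] theorem map_mk (h : m = m') (f : M →ₗ[KLRAlg D] M') (g : N →ₗ[KLRAlg D] N') (u : M)
    (v : N) : map h f g (mk D m M N u v) = mk D m' M' N' (f u) (g v) := by
  unfold map
  rw [lift_mk]
  rfl

theorem map_id : map (rfl : m = m) (LinearMap.id : M →ₗ[KLRAlg D] M)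
    (LinearMap.id : N →ₗ[KLRAlg D] N) = LinearMap.id := by
  apply hom_ext
  intro u v
  simp

theorem map_comp {m'' : ℕ} (h : m = m') (h' : m' = m'') (f : M →ₗ[KLRAlg D] M')
    (g : N →ₗ[KLRAlg D] N') (f' : M' →ₗ[KLRAlg D] M'') (g' : N' →ₗ[KLRAlg D] N'') :
    (map h' f' g').comp (map h f g) = map (h.trans h') (f'.comp f) (g'.comp g) := by
  apply hom_ext
  intro u v
  simp

theorem map_map {m'' : ℕ} (h : m = m') (h' : m' = m'') (f : M →ₗ[KLRAlg D] M')
    (g : N →ₗ[KLRAlg D] N') (f' : M' →ₗ[KLRAlg D] M'') (g' : N' →ₗ[KLRAlg D] N'')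
    (z : Conv D m M N) :
    map h' f' g' (map h f g z) = map (h.trans h') (f'.comp f) (g'.comp g) z :=
  LinearMap.congr_fun (map_comp h h' f g f' g') z

theorem map_surjective (h : m = m') (f : M →ₗ[KLRAlg D] M') (g : N →ₗ[KLRAlg D] N')
    (hf : Function.Surjective f) (hg : Function.Surjective g) :
    Function.Surjective (map h f g) := by
  intro z
  induction z using Conv.induction with
  | h0 => exact ⟨0, map_zero _⟩
  | hadd y z hy hz =>
    obtain ⟨y', rfl⟩ := hy
    obtain ⟨z', rfl⟩ := hz
    exact ⟨y' + z', map_add _ _ _⟩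
  | h a u v =>
    obtain ⟨u', rfl⟩ := hf u
    obtain ⟨v', rfl⟩ := hg v
    exact ⟨a • mk D m M N u' v', by rw [map_smul, map_mk]⟩

end map

end Conv

/-! ### the shuffle basis -/

/-- `t 0 * t 1 * ... * t (m - 1)`: moves the strand number `m` to the position `0` -/
noncomputable def Datum.chain (D : Datum K I) : ℕ → KLRAlg D
  | 0 => 1
  | m + 1 => D.chain m * D.t m

/-- the element of the KLR algebra attached to a shuffle: `false` means that the strand belongs to
the first factor, `true` means that it belongs to the second factor -/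
noncomputable def Datum.tw (D : Datum K I) : List Bool → KLRAlg D
  | [] => 1
  | false :: w => D.shn 1 (D.tw w)
  | true :: w => D.shn 1 (D.tw w) * D.chain (w.count false)

/-- shuffles of `m` strands with `n` strands -/
def Shf (m n : ℕ) : Type := {w : List Bool // w.count false = m ∧ w.count true = n}

section

variable (D) (m n : ℕ) (M N : Type) [AddCommGroup M] [Module K M] [Module (KLRAlg D) M]
  [AddCommGroup N] [Module K N] [Module (KLRAlg D) N]

/-- the map `(f_w) ↦ ∑ w, tw w • mk f_w` -/
noncomputable def convSum : (Shf m n →₀ (M ⊗[K] N)) →ₗ[K] Conv D m M N :=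
  Finsupp.lsum K fun w =>
    (Algebra.lsmul K K (Conv D m M N) (D.tw w.1)).comp (TensorProduct.lift (Conv.mk D m M N))

end

theorem convSum_single {m n : ℕ} {M N : Type} [AddCommGroup M] [Module K M] [Module (KLRAlg D) M]
    [AddCommGroup N] [Module K N] [Module (KLRAlg D) N] (w : Shf m n) (u : M) (v : N) :
    convSum D m n M N (Finsupp.single w (u ⊗ₜ v)) = D.tw w.1 • Conv.mk D m M N u v := by
  simp [convSum]

/-- the shuffle basis theorem -/
def S_basis (D : Datum K I) : Prop :=
  ∀ (m n : ℕ) (M N : Type) [AddCommGroup M] [Module K M] [Module (KLRAlg D) M]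
    [IsScalarTower K (KLRAlg D) M]
    [AddCommGroup N] [Module K N] [Module (KLRAlg D) N] [IsScalarTower K (KLRAlg D) N],
    IsStrand D m M → IsStrand D n N → Function.Bijective (convSum D m n M N)

end Pool.Agent.KLS
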