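import Pool.Agent.Work.MP_e487d8_al.Bd.B08

/-! MP_e487d8_al: exactness of the convolution product, from the shuffle basis theorem. -/

set_option autoImplicit false

open scoped TensorProduct

namespace Pool.Agent.KLS

variable {K I : Type} [Field K] [Fintype I] [DecidableEq I] {D : Datum K I}

namespace Conv

section

variable {m m' n n' : ℕ} {M M' M'' N N' N'' : Type}
  [AddCommGroup M] [Module K M] [Module (KLRAlg D) M] [IsScalarTower K (KLRAlg D) M]
  [AddCommGroup N] [Module K N] [Module (KLRAlg D) N] [IsScalarTower K (KLRAlg D) N]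
  [AddCommGroup M'] [Module K M'] [Module (KLRAlg D) M'] [IsScalarTower K (KLRAlg D) M']
  [AddCommGroup N'] [Module K N'] [Module (KLRAlg D) N'] [IsScalarTower K (KLRAlg D) N']
  [AddCommGroup M''] [Module K M''] [Module (KLRAlg D) M''] [IsScalarTower K (KLRAlg D) M'']
  [AddCommGroup N''] [Module K N''] [Module (KLRAlg D) N''] [IsScalarTower K (KLRAlg D) N'']

/-- `f ⊗ g` on all components -/
noncomputable def compMap (m n : ℕ) (f : M →ₗ[KLRAlg D] M') (g : N →ₗ[KLRAlg D] N') :
    (Shf m n →₀ (M ⊗[K] N)) →ₗ[K] (Shf m n →₀ (M' ⊗[K] N')) :=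
  Finsupp.mapRange.linearMap (TensorProduct.map (toK f) (toK g))

theorem map_convSum (n : ℕ) (f : M →ₗ[KLRAlg D] M') (g : N →ₗ[KLRAlg D] N')
    (z : Shf m n →₀ (M ⊗[K] N)) :
    map (rfl : m = m) f g (convSum D m n M N z) = convSum D m n M' N' (compMap m n f g z) := by
  have h : (toK (map (rfl : m = m) f g)).comp (convSum D m n M N) =
      (convSum D m n M' N').comp (compMap m n f g) := by
    apply Finsupp.lhom_ext'
    intro w
    apply TensorProduct.ext'
    intro u v
    simp only [LinearMap.comp_apply, Finsupp.lsingle_apply, convSum_single, toK_apply, map_smul,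
      map_mk, compMap, Finsupp.mapRange.linearMap_apply, Finsupp.mapRange_single,
      TensorProduct.map_tmul]
  exact LinearMap.congr_fun h z

theorem map_injective (hb : S_basis D) (h : m = m') (hM : IsStrand D m M) (hN : IsStrand D n N)
    (hM' : IsStrand D m' M') (hN' : IsStrand D n N')
    (f : M →ₗ[KLRAlg D] M') (g : N →ₗ[KLRAlg D] N')
    (hf : Function.Injective f) (hg : Function.Injective g) :
    Function.Injective (map h f g) := by
  subst h
  intro y z hyz
  obtain ⟨y, rfl⟩ := (hb m n M N hM hN).2 y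
  obtain ⟨z, rfl⟩ := (hb m n M N hM hN).2 z
  rw [map_convSum, map_convSum] at hyz
  have h1 := (hb m n M' N' hM' hN').1 hyz
  have h2 : Function.Injective (TensorProduct.map (toK f) (toK g)) :=
    TensorProduct.map_injective_of_flat_flat _ _ hf hg
  have h3 : y = z := Finsupp.mapRange_injective _ (map_zero _) h2 h1
  rw [h3]

omit [DecidableEq I] [Fintype I] in
theorem finsupp_exact {ι V V' V'' : Type} [AddCommGroup V] [Module K V] [AddCommGroup V']
    [Module K V'] [AddCommGroup V''] [Module K V''] (i : V' →ₗ[K] V) (g : V →ₗ[K] V'')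
    (h : Function.Exact i g) :
    Function.Exact (Finsupp.mapRange.linearMap (α := ι) i)
      (Finsupp.mapRange.linearMap (α := ι) g) := by
  classical
  intro z
  constructor
  · intro h2
    have h4 : ∀ w, ∃ y, i y = z w := by
      intro w
      have h5 : g (z w) = 0 := DFunLike.congr_fun h2 w
      exact (h (z w)).1 h5
    choose y hy using h4
    refine ⟨Finsupp.onFinset z.support (fun w => if z w = 0 then 0 else y w) ?_, ?_⟩
    · intro w hw
      rw [Finsupp.mem_support_iff]
      intro hz
      exact hw (if_pos hz)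
    · ext w
      simp only [Finsupp.mapRange.linearMap_apply, Finsupp.mapRange_apply,
        Finsupp.onFinset_apply]
      split_ifs with hz
      · rw [map_zero, hz]
      · exact hy w
  · rintro ⟨y, rfl⟩
    ext w
    simp only [Finsupp.mapRange.linearMap_apply, Finsupp.mapRange_apply, Finsupp.coe_zero,
      Pi.zero_apply]
    exact (h _).2 ⟨_, rfl⟩

/-- exactness of `M ∘ -` -/
theorem exact_right (hb : S_basis D) (hM : IsStrand D m M) (hN' : IsStrand D n N')
    (hN : IsStrand D n N) (hN'' : IsStrand D n N'')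
    (i : N' →ₗ[KLRAlg D] N) (g : N →ₗ[KLRAlg D] N'') (h : Function.Exact i g) :
    Function.Exact (map (rfl : m = m) (LinearMap.id : M →ₗ[KLRAlg D] M) i)
      (map (rfl : m = m) (LinearMap.id : M →ₗ[KLRAlg D] M) g) := by
  have h1 : Function.Exact (TensorProduct.map (toK (LinearMap.id : M →ₗ[KLRAlg D] M)) (toK i))
      (TensorProduct.map (toK (LinearMap.id : M →ₗ[KLRAlg D] M)) (toK g)) :=
    Module.Flat.lTensor_exact (R := K) M (f := toK i) (g := toK g) h
  have h2 := finsupp_exact (ι := Shf m n) _ _ h1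
  intro z
  obtain ⟨z, rfl⟩ := (hb m n M N hM hN).2 z
  rw [map_convSum]
  constructor
  · intro h3
    rw [← map_zero (convSum D m n M N'')] at h3
    obtain ⟨y, hy⟩ := (h2 z).1 ((hb m n M N'' hM hN'').1 h3)
    refine ⟨convSum D m n M N' y, ?_⟩
    rw [map_convSum]
    exact congrArg _ hy
  · rintro ⟨y, hy⟩
    obtain ⟨y, rfl⟩ := (hb m n M N' hM hN').2 y
    rw [map_convSum] at hy
    have h3 := (hb m n M N hM hN).1 hy
    have h4 : compMap m n (LinearMap.id : M →ₗ[KLRAlg D] M) g z = 0 := (h2 z).2 ⟨y, h3⟩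
    rw [h4, map_zero]

/-- exactness of `- ∘ N` -/
theorem exact_left (hb : S_basis D) (hN : IsStrand D n N) (hM' : IsStrand D m M')
    (hM : IsStrand D m M) (hM'' : IsStrand D m M'')
    (i : M' →ₗ[KLRAlg D] M) (g : M →ₗ[KLRAlg D] M'') (h : Function.Exact i g) :
    Function.Exact (map (rfl : m = m) i (LinearMap.id : N →ₗ[KLRAlg D] N))
      (map (rfl : m = m) g (LinearMap.id : N →ₗ[KLRAlg D] N)) := by
  have h1 : Function.Exact (TensorProduct.map (toK i) (toK (LinearMap.id : N →ₗ[KLRAlg D] N)))
      (TensorProduct.map (toK g) (toK (LinearMap.id : N →ₗ[KLRAlg D] N))) :=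
    Module.Flat.rTensor_exact (R := K) N (f := toK i) (g := toK g) h
  have h2 := finsupp_exact (ι := Shf m n) _ _ h1
  intro z
  obtain ⟨z, rfl⟩ := (hb m n M N hM hN).2 z
  rw [map_convSum]
  constructor
  · intro h3
    rw [← map_zero (convSum D m n M'' N)] at h3
    obtain ⟨y, hy⟩ := (h2 z).1 ((hb m n M'' N hM'' hN).1 h3)
    refine ⟨convSum D m n M' N y, ?_⟩
    rw [map_convSum]
    exact congrArg _ hy
  · rintro ⟨y, hy⟩
    obtain ⟨y, rfl⟩ := (hb m n M' N hM' hN).2 y
    rw [map_convSum] at hy
    have h3 := (hb m n M N hM hN).1 hy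
    have h4 : compMap m n g (LinearMap.id : N →ₗ[KLRAlg D] N) z = 0 := (h2 z).2 ⟨y, h3⟩
    rw [h4, map_zero]

end

end Conv

end Pool.Agent.KLS
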