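import Pool.Agent.Work.MP_e487d8_al.Y.Conv.KZ

/-! MP_e487d8_al: the lemma K0 and its mirror K0'. -/

set_option autoImplicit false

open scoped TensorProduct

namespace Pool.Agent.KLS

variable {K I : Type} [Field K] [Fintype I] [DecidableEq I] {D : Datum K I}

/-! ### lemmas on `tw` -/

theorem Datum.tr_chain (D : Datum K I) {m p : ℕ} (h : m = 0 ∨ m < p) :
    D.tr p (D.chain m) = D.chain m := by
  induction m with
  | zero => exact map_one _
  | succ m ih =>
    have hm : m + 1 < p := by omega
    rw [Datum.chain, map_mul, ih (by omega), D.tr_t, if_pos hm]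

theorem Datum.tr_tw (D : Datum K I) {p : ℕ} (w : List Bool) (h : w.length ≤ p) :
    D.tr p (D.tw w) = D.tw w := by
  induction w generalizing p with
  | nil => exact map_one _
  | cons b w ih =>
    rw [List.length_cons] at h
    obtain ⟨p, rfl⟩ : ∃ q, p = 1 + q := ⟨p - 1, by omega⟩
    cases b with
    | false =>
      rw [Datum.tw, D.tr_shn, ih (by omega)]
    | true =>
      rw [Datum.tw, map_mul, D.tr_shn, ih (by omega), D.tr_chain]
      have := w.count_le_length (a := false)
      omega

theorem Datum.tw_append_true (D : Datum K I) (w : List Bool) (n : ℕ) :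
    D.tw (w ++ List.replicate n true) = D.tw w := by
  induction w with
  | nil =>
    induction n with
    | zero => rfl
    | succ n ih =>
      rw [List.nil_append] at ih ⊢
      change D.shn 1 (D.tw (List.replicate n true)) *
        D.chain ((List.replicate n true).count false) = 1
      rw [ih]
      simp [List.count_replicate, Datum.tw, Datum.chain]
  | cons b w ih =>
    cases b with
    | false => rw [List.cons_append, Datum.tw, Datum.tw, ih]
    | true =>
      rw [List.cons_append, Datum.tw, Datum.tw, ih, List.count_append]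
      simp [List.count_replicate]

theorem Datum.tw_false_append (D : Datum K I) (w : List Bool) (m : ℕ) :
    D.tw (List.replicate m false ++ w) = D.shn m (D.tw w) := by
  induction m with
  | zero => rw [D.shn_zero]; rfl
  | succ m ih =>
    rw [List.replicate_succ, List.cons_append, Datum.tw, ih, D.shn_shn, Nat.add_comm]

/-- append trues -/
def Shf.appendTrue {m l : ℕ} (n : ℕ) (w : Shf m l) : Shf m (l + n) :=
  ⟨w.1 ++ List.replicate n true, by
    rw [List.count_append, List.count_append, w.2.1, w.2.2]
    simp [List.count_replicate]⟩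

/-- prepend falses -/
def Shf.prependFalse {l n : ℕ} (m : ℕ) (w : Shf l n) : Shf (m + l) n :=
  ⟨List.replicate m false ++ w.1, by
    rw [List.count_append, List.count_append, w.2.1, w.2.2]
    simp [List.count_replicate]⟩

theorem Shf.appendTrue_injective {m l : ℕ} (n : ℕ) :
    Function.Injective (Shf.appendTrue (m := m) (l := l) n) := by
  intro w w' h
  have h1 := congrArg Subtype.val h
  exact Subtype.ext (List.append_cancel_right h1)

theorem Shf.prependFalse_injective {l n : ℕ} (m : ℕ) :
    Function.Injective (Shf.prependFalse (l := l) (n := n) m) := by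
  intro w w' h
  have h1 := congrArg Subtype.val h
  exact Subtype.ext (List.append_cancel_left h1)

theorem length_eq_count (w : List Bool) : w.length = w.count false + w.count true := by
  induction w with
  | nil => rfl
  | cons b w ih =>
    cases b with
    | false =>
      rw [List.length_cons, List.count_cons_self, List.count_cons_of_ne (by decide), ih]
      omega
    | true =>
      rw [List.length_cons, List.count_cons_self, List.count_cons_of_ne (by decide), ih]
      omega

theorem Shf.length_eq {m n : ℕ} (w : Shf m n) : w.1.length = m + n := by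
  rw [length_eq_count, w.2.1, w.2.2]

/-! ### linear algebra -/

section lin

variable {V V' W W' : Type} [AddCommGroup V] [Module K V] [AddCommGroup V'] [Module K V']
  [AddCommGroup W] [Module K W] [AddCommGroup W'] [Module K W']

omit [Fintype I] [DecidableEq I] in
/-- an element of `V ⊗ W` killed by all `id ⊗ φ_v` is killed by `id ⊗ ψ` if the common kernel of
the `φ_v` is contained in the kernel of `ψ` -/
theorem lTensor_zero {ι : Type} (φ : ι → W →ₗ[K] W') (ψ : W →ₗ[K] V')
    (h : ∀ u, (∀ v, φ v u = 0) → ψ u = 0) (z : V ⊗[K] W)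
    (hz : ∀ v, (φ v).lTensor V z = 0) : ψ.lTensor V z = 0 := by
  classical
  let b := Module.Basis.ofVectorSpace K V
  have key : ∀ {X : Type} [AddCommGroup X] [Module K X] (χ : W →ₗ[K] X) (y : V ⊗[K] W) (j),
      TensorProduct.equivFinsuppOfBasisLeft b (χ.lTensor V y) j =
        χ (TensorProduct.equivFinsuppOfBasisLeft b y j) := by
    intro X _ _ χ y j
    induction y using TensorProduct.induction_on with
    | zero => simp
    | tmul u v => simp
    | add y y' hy hy' => simp only [map_add, Finsupp.add_apply, hy, hy']
  apply (TensorProduct.equivFinsuppOfBasisLeft b).injective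
  rw [map_zero]
  ext j
  rw [key, Finsupp.zero_apply]
  apply h
  intro v
  rw [← key, hz v, map_zero, Finsupp.zero_apply]

omit [Fintype I] [DecidableEq I] in
/-- mirror version -/
theorem rTensor_zero {ι : Type} (φ : ι → W →ₗ[K] W') (ψ : W →ₗ[K] V')
    (h : ∀ u, (∀ v, φ v u = 0) → ψ u = 0) (z : W ⊗[K] V)
    (hz : ∀ v, (φ v).rTensor V z = 0) : ψ.rTensor V z = 0 := by
  have h1 : ∀ {X : Type} [AddCommGroup X] [Module K X] (χ : W →ₗ[K] X) (y : W ⊗[K] V),
      TensorProduct.comm K X V (χ.rTensor V y) = χ.lTensor V (TensorProduct.comm K W V y) := by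
    intro X _ _ χ y
    induction y using TensorProduct.induction_on with
    | zero => simp
    | tmul u v => simp
    | add y y' hy hy' => simp only [map_add, hy, hy']
  apply (TensorProduct.comm K V' V).injective
  rw [h1, map_zero]
  apply lTensor_zero φ ψ h
  intro v
  rw [← h1, hz v, map_zero]

end lin

namespace Conv

variable {m l n : ℕ} {M N L : Type}
  [AddCommGroup M] [Module K M] [Module (KLRAlg D) M] [IsScalarTower K (KLRAlg D) M]
  [AddCommGroup N] [Module K N] [Module (KLRAlg D) N] [IsScalarTower K (KLRAlg D) N]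
  [AddCommGroup L] [Module K L] [Module (KLRAlg D) L] [IsScalarTower K (KLRAlg D) L]

/-- membership in `M ∘ S` in terms of components -/
theorem convSum_mem_subR (hb : S_basis D) (hM : IsStrand D m M) (hN : IsStrand D n N)
    (S : Submodule (KLRAlg D) N) (f : Shf m n →₀ (M ⊗[K] N)) :
    convSum D m n M N f ∈ subR m M S ↔ ∀ w, (toK S.mkQ).lTensor M (f w) = 0 := by
  have h1 : subR m M S = LinearMap.ker (map (rfl : m = m) (LinearMap.id : M →ₗ[KLRAlg D] M)
      S.mkQ) := by
    rw [ker_map_right hb hM hN (hN.quot S), Submodule.ker_mkQ]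
  rw [h1, LinearMap.mem_ker, map_convSum]
  constructor
  · intro h w
    rw [← map_zero (convSum D m n M (N ⧸ S))] at h
    have h2 := (hb m n M (N ⧸ S) hM (hN.quot S)).1 h
    exact DFunLike.congr_fun h2 w
  · intro h
    have h2 : compMap m n (LinearMap.id : M →ₗ[KLRAlg D] M) S.mkQ f = 0 := by
      ext w
      exact h w
    rw [h2, map_zero]

/-- membership in `S ∘ N` in terms of components -/
theorem convSum_mem_subL (hb : S_basis D) (hM : IsStrand D m M) (hN : IsStrand D n N)
    (S : Submodule (KLRAlg D) M) (f : Shf m n →₀ (M ⊗[K] N)) :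
    convSum D m n M N f ∈ subL m S N ↔ ∀ w, (toK S.mkQ).rTensor N (f w) = 0 := by
  have h1 : subL m S N = LinearMap.ker (map (rfl : m = m) S.mkQ
      (LinearMap.id : N →ₗ[KLRAlg D] N)) := by
    rw [ker_map_left hb hN hM (hM.quot S), Submodule.ker_mkQ]
  rw [h1, LinearMap.mem_ker, map_convSum]
  constructor
  · intro h w
    rw [← map_zero (convSum D m n (M ⧸ S) N)] at h
    have h2 := (hb m n (M ⧸ S) N (hM.quot S) hN).1 h
    exact DFunLike.congr_fun h2 w
  · intro h
    have h2 : compMap m n S.mkQ (LinearMap.id : N →ₗ[KLRAlg D] N) f = 0 := by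
      ext w
      exact h w
    rw [h2, map_zero]

/-- components of `mk x v` for `x` in `M ∘ L` -/
theorem assoc_mk_convSum (v : N) (n : ℕ) (f : Shf m l →₀ (M ⊗[K] L)) :
    assoc D m l M L N (mk D (m + l) (Conv D m M L) N (convSum D m l M L f) v) =
      convSum D m (l + n) M (Conv D l L N) (Finsupp.mapDomain (Shf.appendTrue n)
        (Finsupp.mapRange.linearMap (((mk D l L N).flip v).lTensor M) f)) := by
  have h : (toK (assoc D m l M L N).toLinearMap).comp
      (((mk D (m + l) (Conv D m M L) N).flip v).comp (convSum D m l M L)) =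
      (convSum D m (l + n) M (Conv D l L N)).comp ((Finsupp.lmapDomain _ K (Shf.appendTrue n)).comp
        (Finsupp.mapRange.linearMap (((mk D l L N).flip v).lTensor M))) := by
    apply Finsupp.lhom_ext'
    intro w
    apply TensorProduct.ext'
    intro u u'
    simp only [LinearMap.comp_apply, Finsupp.lsingle_apply, convSum_single, toK_apply,
      LinearMap.flip_apply, Finsupp.mapRange.linearMap_apply, Finsupp.mapRange_single,
      LinearMap.lTensor_tmul, Finsupp.lmapDomain_apply, Finsupp.mapDomain_single]
    have h1 : D.tw (Shf.appendTrue n w).1 = D.tw w.1 := D.tw_append_true w.1 n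
    rw [h1, ← tr_smul_mk, D.tr_tw _ (le_of_eq w.length_eq)]
    simp
  exact LinearMap.congr_fun h f

/-- components of `mk a y` for `y` in `L ∘ N` -/
theorem assoc_symm_mk_convSum (a : M) (f : Shf l n →₀ (L ⊗[K] N)) :
    (assoc D m l M L N).symm (mk D m M (Conv D l L N) a (convSum D l n L N f)) =
      convSum D (m + l) n (Conv D m M L) N (Finsupp.mapDomain (Shf.prependFalse m)
        (Finsupp.mapRange.linearMap ((mk D m M L a).rTensor N) f)) := by
  have h : (toK (assoc D m l M L N).symm.toLinearMap).comp
      ((mk D m M (Conv D l L N) a).comp (convSum D l n L N)) =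
      (convSum D (m + l) n (Conv D m M L) N).comp
        ((Finsupp.lmapDomain _ K (Shf.prependFalse m)).comp
        (Finsupp.mapRange.linearMap ((mk D m M L a).rTensor N))) := by
    apply Finsupp.lhom_ext'
    intro w
    apply TensorProduct.ext'
    intro u v
    simp only [LinearMap.comp_apply, Finsupp.lsingle_apply, convSum_single, toK_apply,
      Finsupp.mapRange.linearMap_apply, Finsupp.mapRange_single,
      LinearMap.rTensor_tmul, Finsupp.lmapDomain_apply, Finsupp.mapDomain_single]
    have h1 : D.tw (Shf.prependFalse m w).1 = D.shn m (D.tw w.1) := D.tw_false_append w.1 m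
    rw [h1, ← shn_smul_mk]
    simp
  exact LinearMap.congr_fun h f

/-- K0: `X ≤ M ∘ L`, `Y ≤ L ∘ N`, `X ∘ N ≤ M ∘ Y` -/
theorem K0 (hb : S_basis D) (hM : IsStrand D m M) (hL : IsStrand D l L) (hN : IsStrand D n N)
    (X : Submodule (KLRAlg D) (Conv D m M L)) (Y : Submodule (KLRAlg D) (Conv D l L N))
    (h : ∀ x ∈ X, ∀ v : N, assoc D m l M L N (mk D (m + l) (Conv D m M L) N x v) ∈ subR m M Y) :
    ∃ P : Submodule (KLRAlg D) L, X ≤ subR m M P ∧ subL l P N ≤ Y := by
  let P : Submodule (KLRAlg D) L :=
    { carrier := {u | ∀ v : N, mk D l L N u v ∈ Y}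
      add_mem' := fun {a b} ha hb' v => by
        rw [map_add, LinearMap.add_apply]
        exact Submodule.add_mem _ (ha v) (hb' v)
      zero_mem' := fun v => by
        rw [map_zero, LinearMap.zero_apply]
        exact Submodule.zero_mem _
      smul_mem' := fun c u hu v => by
        rw [← tr_smul_mk]
        exact Submodule.smul_mem _ _ (hu v) }
  refine ⟨P, ?_, ?_⟩
  · intro x hx
    obtain ⟨f, rfl⟩ := (hb m l M L hM hL).2 x
    rw [convSum_mem_subR hb hM hL]
    intro w
    apply lTensor_zero (fun v : N => (toK Y.mkQ).comp ((mk D l L N).flip v))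
    · intro u hu
      rw [toK_apply, Submodule.mkQ_apply, Submodule.Quotient.mk_eq_zero]
      intro v
      have h1 := hu v
      rwa [LinearMap.comp_apply, toK_apply, Submodule.mkQ_apply, Submodule.Quotient.mk_eq_zero]
        at h1
    · intro v
      have h1 := h _ hx v
      rw [assoc_mk_convSum v n, convSum_mem_subR hb hM (isStrand hL hN)] at h1
      have h2 := h1 (Shf.appendTrue n w)
      rw [Finsupp.mapDomain_apply (Shf.appendTrue_injective n)] at h2
      rw [LinearMap.lTensor_comp]
      exact h2
  · rw [subL, Submodule.span_le]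
    rintro z ⟨u, v, rfl⟩
    exact u.2 v

/-- K0': `Y ≤ L ∘ N`, `X ≤ M ∘ L`, `M ∘ Y ≤ X ∘ N` -/
theorem K0' (hb : S_basis D) (hM : IsStrand D m M) (hL : IsStrand D l L) (hN : IsStrand D n N)
    (X : Submodule (KLRAlg D) (Conv D m M L)) (Y : Submodule (KLRAlg D) (Conv D l L N))
    (h : ∀ a : M, ∀ y ∈ Y,
      (assoc D m l M L N).symm (mk D m M (Conv D l L N) a y) ∈ subL (m + l) X N) :
    ∃ P : Submodule (KLRAlg D) L, Y ≤ subL l P N ∧ subR m M P ≤ X := by
  let P : Submodule (KLRAlg D) L :=
    { carrier := {u | ∀ a : M, mk D m M L a u ∈ X}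
      add_mem' := fun {b c} ha hb' v => by
        rw [map_add]
        exact Submodule.add_mem _ (ha v) (hb' v)
      zero_mem' := fun v => by
        rw [map_zero]
        exact Submodule.zero_mem _
      smul_mem' := fun c u hu v => by
        rw [← shn_smul_mk]
        exact Submodule.smul_mem _ _ (hu v) }
  refine ⟨P, ?_, ?_⟩
  · intro y hy
    obtain ⟨f, rfl⟩ := (hb l n L N hL hN).2 y
    rw [convSum_mem_subL hb hL hN]
    intro w
    apply rTensor_zero (fun a : M => (toK X.mkQ).comp (mk D m M L a))
    · intro u hu
      rw [toK_apply, Submodule.mkQ_apply, Submodule.Quotient.mk_eq_zero]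
      intro a
      have h1 := hu a
      rwa [LinearMap.comp_apply, toK_apply, Submodule.mkQ_apply, Submodule.Quotient.mk_eq_zero]
        at h1
    · intro a
      have h1 := h a _ hy
      rw [assoc_symm_mk_convSum, convSum_mem_subL hb (isStrand hM hL) hN] at h1
      have h2 := h1 (Shf.prependFalse m w)
      rw [Finsupp.mapDomain_apply (Shf.prependFalse_injective m)] at h2
      rw [LinearMap.rTensor_comp]
      exact h2
  · rw [subR, Submodule.span_le]
    rintro z ⟨u, v, rfl⟩
    exact v.2 u

end Conv

end Pool.Agent.KLS
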